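import Mathlib

/-!
Task MO-MR of helper76: counting pairs `(a₁, m)` with `N < a₁ ≤ 2N`, `a < a₁ m ≤ a + h`,
`d ∣ a₁`, `e ∣ m`, and with sieve conditions.
-/

set_option autoImplicit false

namespace Pool.Agent.W161.MO

open Finset
open scoped Classical

/-- pairs `(a₁, m)` with `N < a₁ ≤ 2N`, `m < M`, `a < a₁ m ≤ a + h` -/
noncomputable def Om (N a h M : ℕ) : Finset (ℕ × ℕ) :=
  ((Ioc N (2 * N)) ×ˢ (range M)).filter (fun u => a < u.1 * u.2 ∧ u.1 * u.2 ≤ a + h)

theorem card_Om (N a h M d e : ℕ) (hM : a + h < M) (hd : 1 ≤ d) (he : 1 ≤ e) :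
    ((Om N a h M).filter (fun u => d ∣ u.1 ∧ e ∣ u.2)).card =
      ∑ n ∈ Ioc (N / d) (2 * N / d), ((a + h) / (d * e * n) - a / (d * e * n)) := by
  have h1 : (Om N a h M).filter (fun u => d ∣ u.1 ∧ e ∣ u.2) =
      ((Ioc (N / d) (2 * N / d)).sigma
        (fun n => Ioc (a / (d * e * n)) ((a + h) / (d * e * n)))).image
        (fun x => (d * x.1, e * x.2)) := by
    ext ⟨u, v⟩
    simp only [Om, mem_filter, mem_product, mem_Ioc, mem_range, mem_image, mem_sigma,
      Prod.mk.injEq, Sigma.exists]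
    constructor
    · rintro ⟨⟨⟨⟨h1, h2⟩, h3⟩, h4, h5⟩, ⟨n, rfl⟩, ⟨m, rfl⟩⟩
      have hn : 0 < n := by
        rcases Nat.eq_zero_or_pos n with h | h
        · subst h; simp at h1
        · exact h
      have hden : 0 < d * e * n := by positivity
      refine ⟨n, m, ⟨⟨?_, ?_⟩, ?_, ?_⟩, rfl, rfl⟩
      · rw [Nat.div_lt_iff_lt_mul (by omega), mul_comm]; exact h1
      · rw [Nat.le_div_iff_mul_le (by omega), mul_comm]; exact h2
      · rw [Nat.div_lt_iff_lt_mul hden]
        calc a < d * n * (e * m) := h4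
          _ = m * (d * e * n) := by ring
      · rw [Nat.le_div_iff_mul_le hden]
        calc m * (d * e * n) = d * n * (e * m) := by ring
          _ ≤ a + h := h5
    · rintro ⟨n, m, ⟨⟨h1, h2⟩, h3, h4⟩, rfl, rfl⟩
      have hn : 0 < n := (Nat.zero_le _).trans_lt h1
      have hden : 0 < d * e * n := by positivity
      rw [Nat.div_lt_iff_lt_mul (by omega), mul_comm] at h1
      rw [Nat.le_div_iff_mul_le (by omega), mul_comm] at h2
      rw [Nat.div_lt_iff_lt_mul hden] at h3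
      rw [Nat.le_div_iff_mul_le hden] at h4
      have h5 : d * n * (e * m) = m * (d * e * n) := by ring
      have h6 : e * m ≤ m * (d * e * n) := by
        calc e * m = (e * m) * 1 := by ring
          _ ≤ (e * m) * (d * n) := Nat.mul_le_mul_left _ (Nat.mul_pos (by omega) hn)
          _ = m * (d * e * n) := by ring
      exact ⟨⟨⟨⟨h1, h2⟩, by omega⟩, by omega, by omega⟩, dvd_mul_right _ _, dvd_mul_right _ _⟩
  rw [h1, card_image_of_injOn, card_sigma]
  · simp only [Nat.card_Ioc]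
  · rintro ⟨n, m⟩ _ ⟨n', m'⟩ _ h
    simp only [Prod.mk.injEq] at h
    obtain ⟨h2, h3⟩ := h
    have h4 : n = n' := Nat.eq_of_mul_eq_mul_left (by omega) h2
    have h5 : m = m' := Nat.eq_of_mul_eq_mul_left (by omega) h3
    subst h4; subst h5; rfl

theorem cast_div (x k : ℕ) (hk : 0 < k) :
    ((x / k : ℕ) : ℝ) = (x : ℝ) / k - Int.fract ((x : ℝ) / k) := by
  rw [Int.fract_div_natCast_eq_div_natCast_mod]
  have hk' : (k : ℝ) ≠ 0 := by positivity
  have h : ((k * (x / k) + x % k : ℕ) : ℝ) = (x : ℝ) := by rw [Nat.div_add_mod]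
  push_cast at h
  field_simp
  linarith

theorem sum_inv_le (M : ℕ) (hM : 1 ≤ M) (M' : ℕ) (h : M ≤ M') :
    ∑ n ∈ Ioc M M', (1 : ℝ) / n ≤ Real.log (M' / M) := by
  induction M', h using Nat.le_induction with
  | base =>
    have : (M : ℝ) ≠ 0 := by positivity
    simp [div_self this]
  | succ n hn ih =>
    rw [sum_Ioc_succ_top (by omega)]
    have h1 : (0 : ℝ) < M := by positivity
    have h2 : (0 : ℝ) < n := by exact_mod_cast (by omega : 0 < n)
    have h3 : Real.log (((n + 1 : ℕ) : ℝ) / M) =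
        Real.log ((n : ℝ) / M) + Real.log (((n + 1 : ℕ) : ℝ) / n) := by
      rw [← Real.log_mul (by positivity) (by positivity)]
      congr 1
      field_simp
    have h4 := Real.one_sub_inv_le_log_of_pos (x := ((n + 1 : ℕ) : ℝ) / n) (by positivity)
    have h5 : 1 - (((n + 1 : ℕ) : ℝ) / n)⁻¹ = 1 / ((n + 1 : ℕ) : ℝ) := by
      push_cast
      field_simp
      ring
    rw [h5] at h4
    rw [h3]
    linarith

theorem le_sum_inv (M M' : ℕ) (h : M ≤ M') :
    Real.log ((M' + 1) / (M + 1)) ≤ ∑ n ∈ Ioc M M', (1 : ℝ) / n := by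
  induction M', h using Nat.le_induction with
  | base =>
    have : (M : ℝ) + 1 ≠ 0 := by positivity
    simp [div_self this]
  | succ n hn ih =>
    rw [sum_Ioc_succ_top (by omega)]
    have h3 : Real.log ((((n + 1 : ℕ) : ℝ) + 1) / (M + 1)) =
        Real.log (((n : ℝ) + 1) / (M + 1)) + Real.log ((((n + 1 : ℕ) : ℝ) + 1) / (n + 1)) := by
      rw [← Real.log_mul (by positivity) (by positivity)]
      congr 1
      field_simp
    have h4 := Real.log_le_sub_one_of_pos (x := (((n + 1 : ℕ) : ℝ) + 1) / (n + 1)) (by positivity)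
    have h5 : (((n + 1 : ℕ) : ℝ) + 1) / (n + 1) - 1 = 1 / ((n + 1 : ℕ) : ℝ) := by
      push_cast
      field_simp
      ring
    rw [h5] at h4
    rw [h3]
    linarith

theorem sum_inv_log2 (N d : ℕ) (hd : 1 ≤ d) (hN : 2 * d ≤ N) :
    |∑ n ∈ Ioc (N / d) (2 * N / d), (1 : ℝ) / n - Real.log 2| ≤ 2 * d / N := by
  have hd0 : (0 : ℝ) < d := by exact_mod_cast hd
  have hN0 : (0 : ℝ) < N := by exact_mod_cast (by omega : 0 < N)
  have hdN : (2 : ℝ) * d ≤ N := by exact_mod_cast hN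
  have h1 : N / d ≤ 2 * N / d := Nat.div_le_div_right (by omega)
  have h2 : 1 ≤ N / d := by
    rw [Nat.le_div_iff_mul_le (by omega)]; omega
  have h3 : ((N / d : ℕ) : ℝ) ≤ N / d := Nat.cast_div_le
  have h4 : ((2 * N / d : ℕ) : ℝ) ≤ 2 * N / d := by
    have := @Nat.cast_div_le ℝ _ _ _ (2 * N) d
    push_cast at this
    exact this
  have h5 : (N : ℝ) / d < (N / d : ℕ) + 1 := by
    rw [div_lt_iff₀ hd0]
    exact_mod_cast Nat.lt_mul_of_div_lt (Nat.lt_succ_self _) (by omega)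
  have h6 : (2 * N : ℝ) / d < (2 * N / d : ℕ) + 1 := by
    rw [div_lt_iff₀ hd0]
    exact_mod_cast Nat.lt_mul_of_div_lt (Nat.lt_succ_self _) (by omega)
  have ht : (d : ℝ) / N ≤ 1 / 2 := by
    rw [div_le_div_iff₀ hN0 (by norm_num)]; linarith
  have ht0 : 0 < (d : ℝ) / N := by positivity
  have hNd : 2 ≤ (N : ℝ) / d := by rw [le_div_iff₀ hd0]; exact hdN
  rw [abs_le]
  constructor
  · have h7 := le_sum_inv _ _ h1
    have h8 : Real.log (2 / (1 + d / N)) ≤
        Real.log ((((2 * N / d : ℕ) : ℝ) + 1) / (((N / d : ℕ) : ℝ) + 1)) := by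
      apply Real.log_le_log (by positivity)
      rw [div_le_div_iff₀ (by positivity) (by positivity)]
      have e1 : (2 : ℝ) * (N / d + 1) = (2 * N / d) * (1 + d / N) := by field_simp
      have e2 : (2 : ℝ) * (((N / d : ℕ) : ℝ) + 1) ≤ 2 * (N / d + 1) := by linarith
      have e3 : (2 * N / d : ℝ) * (1 + d / N) ≤ (((2 * N / d : ℕ) : ℝ) + 1) * (1 + d / N) :=
        mul_le_mul_of_nonneg_right h6.le (by positivity)
      linarith
    rw [Real.log_div (by norm_num) (by positivity)] at h8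
    have h9 := Real.log_le_sub_one_of_pos (x := 1 + (d : ℝ) / N) (by positivity)
    have h10 : (2 : ℝ) * d / N = 2 * (d / N) := by ring
    rw [h10]
    linarith
  · have h7 := sum_inv_le _ h2 _ h1
    have hq : (0 : ℝ) < ((N / d : ℕ) : ℝ) := by exact_mod_cast h2
    have h8 : Real.log (((2 * N / d : ℕ) : ℝ) / ((N / d : ℕ) : ℝ)) ≤
        Real.log (2 * (1 + 2 * (d / N))) := by
      have hq2 : (0 : ℝ) < ((2 * N / d : ℕ) : ℝ) := by exact_mod_cast (by omega)
      apply Real.log_le_log (by positivity)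
      rw [div_le_iff₀ hq]
      have e1 : (N : ℝ) / d - 1 ≤ ((N / d : ℕ) : ℝ) := by linarith
      have e2 : 2 * (N : ℝ) / d ≤ 2 * (1 + 2 * (d / N)) * ((N : ℝ) / d - 1) := by
        have : 2 * (1 + 2 * ((d : ℝ) / N)) * ((N : ℝ) / d - 1) =
            2 * N / d + 2 - 4 * (d / N) := by
          field_simp
          ring
        rw [this]
        linarith
      have e3 : 2 * (1 + 2 * ((d : ℝ) / N)) * ((N : ℝ) / d - 1) ≤
          2 * (1 + 2 * (d / N)) * ((N / d : ℕ) : ℝ) :=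
        mul_le_mul_of_nonneg_left e1 (by positivity)
      linarith
    rw [Real.log_mul (by norm_num) (by positivity)] at h8
    have h9 := Real.log_le_sub_one_of_pos (x := 1 + 2 * ((d : ℝ) / N)) (by positivity)
    have h10 : (2 : ℝ) * d / N = 2 * (d / N) := by ring
    rw [h10]
    linarith

/-- the count with divisibility conditions -/
theorem count_bound (N a h M d e : ℕ) (hM : a + h < M) (hd : 1 ≤ d) (he : 1 ≤ e)
    (hN : 2 * d ≤ N) (B : ℝ)
    (hB : ∀ y : ℕ, a ≤ y → y ≤ a + h →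
      |∑ n ∈ Ioc (N / d) (2 * N / d), (Int.fract ((y : ℝ) / ((d * e : ℕ) * n)) - 1 / 2)| ≤ B) :
    |(((Om N a h M).filter (fun u => d ∣ u.1 ∧ e ∣ u.2)).card : ℝ) -
      h * Real.log 2 / (d * e)| ≤ 2 * B + 2 * h / N := by
  have hd0 : (0 : ℝ) < d := by exact_mod_cast hd
  have he0 : (0 : ℝ) < e := by exact_mod_cast he
  have he1 : (1 : ℝ) ≤ e := by exact_mod_cast he
  have hN0 : (0 : ℝ) < N := by exact_mod_cast (by omega : 0 < N)
  rw [card_Om N a h M d e hM hd he]
  have h1 : ((∑ n ∈ Ioc (N / d) (2 * N / d), ((a + h) / (d * e * n) - a / (d * e * n)) : ℕ) : ℝ) =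
      h / (d * e) * ∑ n ∈ Ioc (N / d) (2 * N / d), (1 : ℝ) / n -
      ∑ n ∈ Ioc (N / d) (2 * N / d), (Int.fract (((a + h : ℕ) : ℝ) / ((d * e : ℕ) * n)) - 1 / 2) +
      ∑ n ∈ Ioc (N / d) (2 * N / d), (Int.fract (((a : ℕ) : ℝ) / ((d * e : ℕ) * n)) - 1 / 2) := by
    rw [Nat.cast_sum, mul_sum, ← sum_sub_distrib, ← sum_add_distrib]
    apply sum_congr rfl
    intro n hn
    have hn0 : 0 < n := (Nat.zero_le _).trans_lt (mem_Ioc.1 hn).1
    have hn' : (0 : ℝ) < n := by exact_mod_cast hn0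
    have hden : 0 < d * e * n := by positivity
    rw [Nat.cast_sub (Nat.div_le_div_right (by omega)), cast_div _ _ hden, cast_div _ _ hden]
    push_cast
    field_simp
    ring
  rw [h1]
  have h2 := sum_inv_log2 N d hd hN
  have h3 := hB (a + h) (by omega) le_rfl
  have h4 := hB a le_rfl (by omega)
  set S := ∑ n ∈ Ioc (N / d) (2 * N / d), (1 : ℝ) / n
  have h5 : |(h : ℝ) / (d * e) * (S - Real.log 2)| ≤ 2 * h / N := by
    rw [abs_mul, abs_of_nonneg (by positivity)]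
    calc (h : ℝ) / (d * e) * |S - Real.log 2| ≤ h / (d * e) * (2 * d / N) :=
          mul_le_mul_of_nonneg_left h2 (by positivity)
      _ = 2 * h / N / e := by field_simp
      _ ≤ 2 * h / N := div_le_self (by positivity) he1
  rw [abs_le] at h3 h4 h5 ⊢
  have h6 : (h : ℝ) / (d * e) * (S - Real.log 2) = h / (d * e) * S - h * Real.log 2 / (d * e) := by
    ring
  rw [h6] at h5
  constructor <;> linarith [h3.1, h3.2, h4.1, h4.2, h5.1, h5.2]

/-! ### sieve conditions -/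

/-- `p` hits the pair `u` -/
def hit (y p : ℕ) (u : ℕ × ℕ) : Prop := if p ≤ y then p ∣ u.1 * u.2 else p ∣ u.1

/-- the local densities -/
noncomputable def gg (y p : ℕ) : ℝ := if p ≤ y then 2 / (p : ℝ) - 1 / (p : ℝ) ^ 2 else 1 / (p : ℝ)

theorem count_hit (W : Finset (ℕ × ℕ)) (A E : ℝ) (hE : 0 ≤ E) (y D : ℕ)
    (H : ∀ d e : ℕ, 1 ≤ d → 1 ≤ e → d ≤ D → e ≤ D →
      |((W.filter (fun u => d ∣ u.1 ∧ e ∣ u.2)).card : ℝ) - A / (d * e)| ≤ E) :
    ∀ T : Finset ℕ, (∀ p ∈ T, p.Prime) → ∀ d e : ℕ, 1 ≤ d → 1 ≤ e →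
      (∀ p ∈ T, ¬ p ∣ d ∧ ¬ p ∣ e) → d * ∏ p ∈ T, p ≤ D → e * ∏ p ∈ T, p ≤ D →
      |((W.filter (fun u => d ∣ u.1 ∧ e ∣ u.2 ∧ ∀ p ∈ T, hit y p u)).card : ℝ) -
        A / (d * e) * ∏ p ∈ T, gg y p| ≤ 3 ^ T.card * E := by
  intro T
  induction T using Finset.induction_on with
  | empty =>
    intro _ d e hd he _ h1 h2
    simp only [prod_empty, mul_one] at h1 h2
    have := H d e hd he h1 h2
    simpa using this
  | insert p T hp ih =>
    intro hpr d e hd he hco h1 h2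
    rw [prod_insert hp] at h1 h2
    have hpp : p.Prime := hpr p (mem_insert_self _ _)
    have hp2 : 2 ≤ p := hpp.two_le
    have hp0 : (0 : ℝ) < p := by exact_mod_cast hpp.pos
    have hd0 : (0 : ℝ) < d := by exact_mod_cast hd
    have he0 : (0 : ℝ) < e := by exact_mod_cast he
    have hT : ∀ q ∈ T, q.Prime := fun q hq => hpr q (mem_insert_of_mem hq)
    have hcop := hco p (mem_insert_self _ _)
    have hcoT : ∀ q ∈ T, ¬ q ∣ d ∧ ¬ q ∣ e := fun q hq => hco q (mem_insert_of_mem hq)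
    have hqp : ∀ q ∈ T, ¬ q ∣ p := by
      intro q hq hqp
      have := (Nat.prime_dvd_prime_iff_eq (hT q hq) hpp).1 hqp
      exact hp (this ▸ hq)
    have hTpos : 0 < ∏ q ∈ T, q := prod_pos fun q hq => (hT q hq).pos
    have hdp : ∀ u : ℕ × ℕ, d * p ∣ u.1 ↔ d ∣ u.1 ∧ p ∣ u.1 := by
      intro u
      constructor
      · intro h
        exact ⟨(dvd_mul_right _ _).trans h, (dvd_mul_left _ _).trans h⟩
      · rintro ⟨h3, h4⟩
        exact Nat.Coprime.mul_dvd_of_dvd_of_dvd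
          ((Nat.Prime.coprime_iff_not_dvd hpp).2 hcop.1).symm h3 h4
    have hep : ∀ u : ℕ × ℕ, e * p ∣ u.2 ↔ e ∣ u.2 ∧ p ∣ u.2 := by
      intro u
      constructor
      · intro h
        exact ⟨(dvd_mul_right _ _).trans h, (dvd_mul_left _ _).trans h⟩
      · rintro ⟨h3, h4⟩
        exact Nat.Coprime.mul_dvd_of_dvd_of_dvd
          ((Nat.Prime.coprime_iff_not_dvd hpp).2 hcop.2).symm h3 h4
    have hle : ∀ x : ℕ, x * ∏ q ∈ T, q ≤ x * (p * ∏ q ∈ T, q) := fun x =>
      Nat.mul_le_mul_left _ (Nat.le_mul_of_pos_left _ hpp.pos)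
    have hcodp : ∀ q ∈ T, ¬ q ∣ d * p := by
      intro q hq h
      rcases (hT q hq).dvd_mul.1 h with h | h
      · exact (hcoT q hq).1 h
      · exact hqp q hq h
    have hcoep : ∀ q ∈ T, ¬ q ∣ e * p := by
      intro q hq h
      rcases (hT q hq).dvd_mul.1 h with h | h
      · exact (hcoT q hq).2 h
      · exact hqp q hq h
    have ih1 := ih hT (d * p) e (Nat.mul_pos hd hpp.pos) he
      (fun q hq => ⟨hcodp q hq, (hcoT q hq).2⟩) (by rw [mul_assoc]; exact h1)
      ((hle e).trans h2)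
    rw [card_insert_of_notMem hp, prod_insert hp, pow_succ]
    by_cases hy : p ≤ y
    · have ih2 := ih hT d (e * p) hd (Nat.mul_pos he hpp.pos)
        (fun q hq => ⟨(hcoT q hq).1, hcoep q hq⟩) ((hle d).trans h1)
        (by rw [mul_assoc]; exact h2)
      have ih3 := ih hT (d * p) (e * p) (Nat.mul_pos hd hpp.pos) (Nat.mul_pos he hpp.pos)
        (fun q hq => ⟨hcodp q hq, hcoep q hq⟩) (by rw [mul_assoc]; exact h1)
        (by rw [mul_assoc]; exact h2)
      have key : (W.filter (fun u => d ∣ u.1 ∧ e ∣ u.2 ∧ ∀ q ∈ insert p T, hit y q u)).card +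
          (W.filter (fun u => d * p ∣ u.1 ∧ e * p ∣ u.2 ∧ ∀ q ∈ T, hit y q u)).card =
          (W.filter (fun u => d * p ∣ u.1 ∧ e ∣ u.2 ∧ ∀ q ∈ T, hit y q u)).card +
          (W.filter (fun u => d ∣ u.1 ∧ e * p ∣ u.2 ∧ ∀ q ∈ T, hit y q u)).card := by
        rw [← card_union_add_card_inter
          (W.filter (fun u => d * p ∣ u.1 ∧ e ∣ u.2 ∧ ∀ q ∈ T, hit y q u))
          (W.filter (fun u => d ∣ u.1 ∧ e * p ∣ u.2 ∧ ∀ q ∈ T, hit y q u))]
        congr 1
        · congr 1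
          ext u
          have hh : hit y p u ↔ (p ∣ u.1 ∨ p ∣ u.2) := by
            rw [hit, if_pos hy, hpp.dvd_mul]
          simp only [mem_filter, mem_union, forall_mem_insert, hdp, hep, hh]
          tauto
        · congr 1
          ext u
          simp only [mem_filter, mem_inter, hdp, hep]
          tauto
      have key' : ((W.filter (fun u => d ∣ u.1 ∧ e ∣ u.2 ∧
          ∀ q ∈ insert p T, hit y q u)).card : ℝ) =
          (W.filter (fun u => d * p ∣ u.1 ∧ e ∣ u.2 ∧ ∀ q ∈ T, hit y q u)).card +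
          (W.filter (fun u => d ∣ u.1 ∧ e * p ∣ u.2 ∧ ∀ q ∈ T, hit y q u)).card -
          (W.filter (fun u => d * p ∣ u.1 ∧ e * p ∣ u.2 ∧ ∀ q ∈ T, hit y q u)).card := by
        rw [eq_sub_iff_add_eq]
        exact_mod_cast key
      rw [key']
      have hg : A / (d * e) * (gg y p * ∏ q ∈ T, gg y q) =
          A / ((d * p : ℕ) * e) * ∏ q ∈ T, gg y q + A / (d * (e * p : ℕ)) * ∏ q ∈ T, gg y q -
          A / ((d * p : ℕ) * (e * p : ℕ)) * ∏ q ∈ T, gg y q := by
        rw [gg, if_pos hy]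
        push_cast
        field_simp
        ring
      rw [hg]
      rw [abs_le] at ih1 ih2 ih3 ⊢
      constructor <;> linarith [ih1.1, ih1.2, ih2.1, ih2.2, ih3.1, ih3.2]
    · have key : (W.filter (fun u => d ∣ u.1 ∧ e ∣ u.2 ∧ ∀ q ∈ insert p T, hit y q u)) =
          (W.filter (fun u => d * p ∣ u.1 ∧ e ∣ u.2 ∧ ∀ q ∈ T, hit y q u)) := by
        ext u
        have hh : hit y p u ↔ p ∣ u.1 := by rw [hit, if_neg hy]
        simp only [mem_filter, forall_mem_insert, hdp, hh]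
        tauto
      rw [key]
      have hg : A / (d * e) * (gg y p * ∏ q ∈ T, gg y q) =
          A / ((d * p : ℕ) * e) * ∏ q ∈ T, gg y q := by
        rw [gg, if_neg hy]
        push_cast
        field_simp
      rw [hg]
      refine ih1.trans ?_
      have : (0 : ℝ) ≤ 3 ^ T.card * E := by positivity
      linarith

theorem three_pow_le (T : Finset ℕ) (hT : ∀ p ∈ T, p.Prime) :
    3 ^ T.card ≤ (∏ p ∈ T, p) ^ 2 := by
  rw [← prod_pow, ← prod_const]
  apply prod_le_prod'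
  intro p hp
  have := (hT p hp).two_le
  nlinarith

theorem card_prod_le (P : Finset ℕ) (hP : ∀ p ∈ P, p.Prime) (D : ℕ) :
    (P.powerset.filter (fun T : Finset ℕ => ∏ p ∈ T, p ≤ D)).card ≤ D := by
  have h1 : (P.powerset.filter (fun T : Finset ℕ => ∏ p ∈ T, p ≤ D)).card ≤ (Icc 1 D).card := by
    apply card_le_card_of_injOn (fun T => ∏ p ∈ T, p)
    · intro T hT
      simp only [coe_filter, mem_powerset, Set.mem_ofPred_eq] at hT
      simp only [coe_Icc, Set.mem_Icc]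
      exact ⟨prod_pos fun p hp => (hP p (hT.1 hp)).pos, hT.2⟩
    · intro T hT T' hT' h
      simp only [coe_filter, mem_powerset, Set.mem_ofPred_eq] at hT hT'
      simp only at h
      have h2 := Nat.primeFactors_prod (fun p hp => hP p (hT.1 hp))
      have h3 := Nat.primeFactors_prod (fun p hp => hP p (hT'.1 hp))
      rw [← h2, ← h3, h]
  simpa using h1

theorem sum_err_le (P : Finset ℕ) (hP : ∀ p ∈ P, p.Prime) (D : ℕ) (E : ℝ) (hE : 0 ≤ E) :
    ∑ T ∈ P.powerset.filter (fun T : Finset ℕ => ∏ p ∈ T, p ≤ D), (3 : ℝ) ^ T.card * E ≤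
      (D : ℝ) ^ 3 * E := by
  calc ∑ T ∈ P.powerset.filter (fun T : Finset ℕ => ∏ p ∈ T, p ≤ D), (3 : ℝ) ^ T.card * E
      ≤ ∑ T ∈ P.powerset.filter (fun T : Finset ℕ => ∏ p ∈ T, p ≤ D), (D : ℝ) ^ 2 * E := by
        apply sum_le_sum
        intro T hT
        rw [mem_filter, mem_powerset] at hT
        apply mul_le_mul_of_nonneg_right _ hE
        have h1 := three_pow_le T (fun p hp => hP p (hT.1 hp))
        have h2 : (∏ p ∈ T, p) ^ 2 ≤ D ^ 2 := Nat.pow_le_pow_left hT.2 2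
        exact_mod_cast h1.trans h2
    _ = ((P.powerset.filter (fun T : Finset ℕ => ∏ p ∈ T, p ≤ D)).card : ℝ) *
          ((D : ℝ) ^ 2 * E) := by rw [sum_const, nsmul_eq_mul]
    _ ≤ D * ((D : ℝ) ^ 2 * E) := by
        apply mul_le_mul_of_nonneg_right _ (by positivity)
        exact_mod_cast card_prod_le P hP D
    _ = (D : ℝ) ^ 3 * E := by ring

end Pool.Agent.W161.MO
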