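import Pool.Agent.W76.MO.Stmts
import Pool.Agent.W161.MO.MR1
import Pool.Agent.H20R2.EN.FLem
import Pool.Agent.Helper256.KM.E1

/-!
Task MO-MR of helper76: the sieve and the main term.
-/

set_option autoImplicit false

namespace Pool.Agent.W161.MO

open Finset
open scoped Classical

theorem gg_bounds (y p : ℕ) (hp : p.Prime) : 0 ≤ gg y p ∧ gg y p ≤ ((2 : ℕ) : ℝ) / ((p : ℝ) - 1) := by
  have h2 : (2 : ℝ) ≤ p := by exact_mod_cast hp.two_le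
  have h0 : (0 : ℝ) < p := by linarith
  have h1 : (0 : ℝ) < (p : ℝ) - 1 := by linarith
  rw [gg]
  split_ifs
  · constructor
    · have : 2 / (p : ℝ) - 1 / (p : ℝ) ^ 2 = (2 * p - 1) / (p : ℝ) ^ 2 := by field_simp
      rw [this]
      apply div_nonneg <;> nlinarith
    · have h3 : 2 / (p : ℝ) ≤ 2 / ((p : ℝ) - 1) := div_le_div_of_nonneg_left (by norm_num) h1
        (by linarith)
      have h4 : 0 ≤ 1 / (p : ℝ) ^ 2 := by positivity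
      push_cast
      linarith
  · constructor
    · positivity
    · have h3 : 1 / (p : ℝ) ≤ 2 / ((p : ℝ) - 1) := by
        rw [div_le_div_iff₀ h0 h1]; linarith
      push_cast
      exact h3

theorem sieve_pairs : ∃ C0 : ℕ, 1 ≤ C0 ∧ ∀ (J y : ℕ) (P : Finset ℕ),
    (∀ p ∈ P, p.Prime ∧ C0 < p ∧ p ≤ 2 ^ 2 ^ J) → ∀ (W : Finset (ℕ × ℕ)) (A E : ℝ), 0 ≤ A → 0 ≤ E →
    (∀ d e : ℕ, 1 ≤ d → 1 ≤ e → d ≤ (2 ^ 2 ^ J) ^ (C0 * C0) → e ≤ (2 ^ 2 ^ J) ^ (C0 * C0) →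
      |((W.filter (fun u => d ∣ u.1 ∧ e ∣ u.2)).card : ℝ) - A / (d * e)| ≤ E) →
    ((W.filter (fun u => ∀ p ∈ P, ¬ hit y p u)).card : ℝ) ≤
      2 * (A * ∏ p ∈ P, (1 - gg y p)) +
        ((J : ℝ) + 2) * ((((2 ^ 2 ^ J) ^ (C0 * C0) : ℕ) : ℝ) ^ 3 * E) := by
  obtain ⟨C0, hC0, hF⟩ := Pool.Agent.H20R2.fLem 2
  refine ⟨C0, hC0, ?_⟩
  intro J y P hP W A E hA hE H
  have hpr : ∀ p ∈ P, p.Prime := fun p hp => (hP p hp).1
  have hcard : ∀ (Q : ℕ × ℕ → Prop) (_ : DecidablePred fun m => Q (Nat.unpair m)),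
      ∑ m ∈ (W.map Nat.pairEquiv.toEmbedding).filter (fun m => Q (Nat.unpair m)), (1 : ℝ) =
      ((W.filter Q).card : ℝ) := by
    intro Q _
    rw [filter_map, sum_map, sum_const, nsmul_eq_mul, mul_one]
    have h : W.filter ((fun m => Q (Nat.unpair m)) ∘ Nat.pairEquiv.toEmbedding) = W.filter Q := by
      apply filter_congr
      intro u _
      show Q (Nat.unpair (Nat.pair u.1 u.2)) ↔ Q u
      rw [Nat.unpair_pair]
    rw [h]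
  have h1 := hF C0 J C0 P (gg y) le_rfl le_rfl hP (fun p hp => gg_bounds y p (hpr p hp))
    (W.map Nat.pairEquiv.toEmbedding) (fun _ => 1) (fun p m => hit y p (Nat.unpair m)) A
    (fun T => 3 ^ T.card * E) (fun _ _ => zero_le_one) hA (by
      intro T hT hD
      have h3 := count_hit W A E hE y ((2 ^ 2 ^ J) ^ (C0 * C0)) H T
        (fun p hp => hpr p (hT hp)) 1 1 le_rfl le_rfl
        (fun p hp => by
          have := (hpr p (hT hp)).one_lt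
          rw [Nat.dvd_one]; omega) (by rw [one_mul]; exact hD) (by rw [one_mul]; exact hD)
      simp only [Nat.cast_one, div_one, mul_one, one_dvd, true_and] at h3
      refine le_trans (le_of_eq ?_) h3
      congr 2
      convert hcard (fun u => ∀ p ∈ T, hit y p u) (Classical.decPred _))
  have h3 : ((W.filter (fun u => ∀ p ∈ P, ¬ hit y p u)).card : ℝ) - A * ∏ p ∈ P, (1 - gg y p) ≤
      (1 / 2 : ℝ) ^ C0 * (A * ∏ p ∈ P, (1 - gg y p)) + ((J : ℝ) + 2) * ∑ T ∈ P.powerset.filter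
      (fun T : Finset ℕ => ∏ p ∈ T, p ≤ (2 ^ 2 ^ J) ^ (C0 * C0)), (3 : ℝ) ^ T.card * E := by
    refine le_trans (le_of_eq ?_) (abs_le.1 h1).2
    congr 1
    convert (hcard (fun u => ∀ p ∈ P, ¬ hit y p u) (Classical.decPred _)).symm
  have h4 := sum_err_le P hpr ((2 ^ 2 ^ J) ^ (C0 * C0)) E hE
  have hprod : 0 ≤ ∏ p ∈ P, (1 - gg y p) := by
    apply prod_nonneg
    intro p hp
    have h2 : (2 : ℝ) ≤ p := by exact_mod_cast (hpr p hp).two_le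
    rw [gg]
    split_ifs
    · have : 1 - (2 / (p : ℝ) - 1 / (p : ℝ) ^ 2) = (1 - 1 / p) ^ 2 := by
        field_simp
        ring
      rw [this]; positivity
    · have : 1 / (p : ℝ) ≤ 1 := by rw [div_le_one (by linarith)]; linarith
      linarith
  have h5 : (1 / 2 : ℝ) ^ C0 ≤ 1 := pow_le_one₀ (by norm_num) (by norm_num)
  have h6 : (1 / 2 : ℝ) ^ C0 * (A * ∏ p ∈ P, (1 - gg y p)) ≤ A * ∏ p ∈ P, (1 - gg y p) := by
    have := mul_le_mul_of_nonneg_right h5 (mul_nonneg hA hprod)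
    linarith
  have h7 : ((J : ℝ) + 2) * ∑ T ∈ P.powerset.filter
      (fun T : Finset ℕ => ∏ p ∈ T, p ≤ (2 ^ 2 ^ J) ^ (C0 * C0)), (3 : ℝ) ^ T.card * E ≤
      ((J : ℝ) + 2) * ((((2 ^ 2 ^ J) ^ (C0 * C0) : ℕ) : ℝ) ^ 3 * E) :=
    mul_le_mul_of_nonneg_left h4 (by positivity)
  linarith

theorem sum_inv_primes_lower : ∃ C : ℝ, 0 ≤ C ∧ ∀ (z0 : ℕ) (Y : ℝ), 2 ≤ Y →
    Real.log (Real.log Y) - C - z0 ≤ ∑ p ∈ (Ioc z0 ⌊Y⌋₊).filter Nat.Prime, (1 : ℝ) / p := by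
  obtain ⟨C, hC, h⟩ := Pool.Agent.Helper256.KM.mertens_lower
  refine ⟨C, hC, fun z0 Y hY => ?_⟩
  have h1 := h Y hY
  have h2 : ∑ p ∈ (Icc 1 ⌊Y⌋₊).filter Nat.Prime, (1 : ℝ) / p ≤
      ∑ p ∈ (Icc 1 z0) ∪ (Ioc z0 ⌊Y⌋₊).filter Nat.Prime, (1 : ℝ) / p := by
    apply sum_le_sum_of_subset_of_nonneg
    · intro p hp
      simp only [mem_filter, mem_Icc, mem_union, mem_Ioc] at hp ⊢
      by_cases h : p ≤ z0
      · left; exact ⟨hp.1.1, h⟩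
      · right; exact ⟨⟨by omega, hp.1.2⟩, hp.2⟩
    · intro p _ _
      positivity
  have h3 : ∑ p ∈ (Icc 1 z0) ∪ (Ioc z0 ⌊Y⌋₊).filter Nat.Prime, (1 : ℝ) / p ≤
      ∑ p ∈ Icc 1 z0, (1 : ℝ) / p + ∑ p ∈ (Ioc z0 ⌊Y⌋₊).filter Nat.Prime, (1 : ℝ) / p := by
    have := sum_union_inter (s₁ := Icc 1 z0) (s₂ := (Ioc z0 ⌊Y⌋₊).filter Nat.Prime)
      (f := fun p => (1 : ℝ) / p)
    have h4 : 0 ≤ ∑ p ∈ (Icc 1 z0) ∩ (Ioc z0 ⌊Y⌋₊).filter Nat.Prime, (1 : ℝ) / p :=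
      sum_nonneg fun p _ => by positivity
    linarith
  have h4 : ∑ p ∈ Icc 1 z0, (1 : ℝ) / p ≤ z0 := by
    calc ∑ p ∈ Icc 1 z0, (1 : ℝ) / p ≤ ∑ p ∈ Icc 1 z0, (1 : ℝ) := by
          apply sum_le_sum
          intro p hp
          have : (1 : ℝ) ≤ p := by exact_mod_cast (mem_Icc.1 hp).1
          rw [div_le_one (by linarith)]
          exact this
      _ = z0 := by simp
  linarith

theorem one_sub_gg_le (y p : ℕ) (hp : p.Prime) :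
    1 - gg y p ≤ Real.exp (-(1 / (p : ℝ)) - (if p ≤ y then 1 / (p : ℝ) else 0)) := by
  have h2 : (2 : ℝ) ≤ p := by exact_mod_cast hp.two_le
  have h0 : (0 : ℝ) < p := by linarith
  have h1 : 1 - 1 / (p : ℝ) ≤ Real.exp (-(1 / (p : ℝ))) := by
    have := Real.add_one_le_exp (-(1 / (p : ℝ)))
    linarith
  have h3 : 0 ≤ 1 - 1 / (p : ℝ) := by
    have : 1 / (p : ℝ) ≤ 1 := by rw [div_le_one h0]; linarith
    linarith
  rw [gg]
  split_ifs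
  · have h4 : 1 - (2 / (p : ℝ) - 1 / (p : ℝ) ^ 2) = (1 - 1 / p) * (1 - 1 / p) := by
      field_simp
      ring
    rw [h4, sub_eq_add_neg (-(1 / (p : ℝ))), Real.exp_add]
    exact mul_le_mul h1 h1 h3 (Real.exp_pos _).le
  · simpa using h1

theorem prod_gg_le (z0 : ℕ) : ∃ K : ℝ, 0 < K ∧ ∀ (J : ℕ) (Y : ℝ), 2 ≤ Y → ⌊Y⌋₊ ≤ 2 ^ 2 ^ J →
    ∏ p ∈ (Ioc z0 (2 ^ 2 ^ J)).filter Nat.Prime, (1 - gg ⌊Y⌋₊ p) ≤ K / (2 ^ J * Real.log Y) := by
  obtain ⟨C, hC, h⟩ := sum_inv_primes_lower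
  refine ⟨Real.exp (2 * C + 2 * z0) / Real.log 2, by
    have := Real.log_pos (one_lt_two (α := ℝ))
    positivity, fun J Y hY hYJ => ?_⟩
  have hl2 := Real.log_pos (one_lt_two (α := ℝ))
  have hlY : 0 < Real.log Y := Real.log_pos (by linarith)
  set P := (Ioc z0 (2 ^ 2 ^ J)).filter Nat.Prime with hP
  have h1 : ∏ p ∈ P, (1 - gg ⌊Y⌋₊ p) ≤
      Real.exp (∑ p ∈ P, (-(1 / (p : ℝ)) - (if p ≤ ⌊Y⌋₊ then 1 / (p : ℝ) else 0))) := by
    rw [Real.exp_sum]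
    apply prod_le_prod
    · intro p hp
      have hpp : p.Prime := (mem_filter.1 hp).2
      have h2 : (2 : ℝ) ≤ p := by exact_mod_cast hpp.two_le
      rw [gg]
      split_ifs
      · have : 1 - (2 / (p : ℝ) - 1 / (p : ℝ) ^ 2) = (1 - 1 / p) ^ 2 := by
          field_simp
          ring
        rw [this]; positivity
      · have : 1 / (p : ℝ) ≤ 1 := by rw [div_le_one (by linarith)]; linarith
        linarith
    · intro p hp
      exact one_sub_gg_le _ _ (mem_filter.1 hp).2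
  have h2 : ∑ p ∈ P, (-(1 / (p : ℝ)) - (if p ≤ ⌊Y⌋₊ then 1 / (p : ℝ) else 0)) =
      -∑ p ∈ P, 1 / (p : ℝ) - ∑ p ∈ (Ioc z0 ⌊Y⌋₊).filter Nat.Prime, (1 : ℝ) / p := by
    rw [sum_sub_distrib, sum_neg_distrib, ← sum_filter]
    congr 2
    ext p
    simp only [hP, mem_filter, mem_Ioc]
    constructor
    · rintro ⟨⟨⟨h1, h2⟩, h3⟩, h4⟩
      exact ⟨⟨h1, h4⟩, h3⟩
    · rintro ⟨⟨h1, h4⟩, h3⟩
      exact ⟨⟨⟨h1, h4.trans hYJ⟩, h3⟩, h4⟩
  have h3 := h z0 Y hY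
  have h4 : (2 : ℝ) ≤ ((2 ^ 2 ^ J : ℕ) : ℝ) := by
    have : 2 ^ 1 ≤ 2 ^ 2 ^ J := Nat.pow_le_pow_right (by norm_num) Nat.one_le_two_pow
    exact_mod_cast this
  have h5 := h z0 ((2 ^ 2 ^ J : ℕ) : ℝ) h4
  rw [Nat.floor_natCast] at h5
  have h6 : Real.log ((2 ^ 2 ^ J : ℕ) : ℝ) = 2 ^ J * Real.log 2 := by
    push_cast
    rw [Real.log_pow]
    push_cast
    ring
  rw [h6] at h5
  rw [h2] at h1
  refine h1.trans ?_
  have h7 : -∑ p ∈ P, 1 / (p : ℝ) - ∑ p ∈ (Ioc z0 ⌊Y⌋₊).filter Nat.Prime, (1 : ℝ) / p ≤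
      (2 * C + 2 * z0) + -Real.log (2 ^ J * Real.log 2) + -Real.log (Real.log Y) := by
    linarith
  refine (Real.exp_le_exp.2 h7).trans ?_
  rw [Real.exp_add, Real.exp_add, Real.exp_neg, Real.exp_neg, Real.exp_log (by positivity),
    Real.exp_log hlY]
  apply le_of_eq
  field_simp

end Pool.Agent.W161.MO
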