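import Pool.Agent.W161.MO.MR2

/-!
Task MO-MR of helper76: assembly of `T_MR`.
-/

set_option autoImplicit false

namespace Pool.Agent.W161.MO

open Finset Filter Topology Pool.Agent.W76.MO
open scoped Classical

theorem large_pow (k : ℕ) (c K : ℝ) (hc : 0 < c) :
    ∃ i₀ : ℕ, ∀ i : ℕ, i₀ ≤ i → K * (i : ℝ) ^ k ≤ (2 : ℝ) ^ (c * i) := by
  have hr : (1 : ℝ) < 2 ^ c := Real.one_lt_rpow (by norm_num) hc
  have h := tendsto_pow_const_div_const_pow_of_one_lt k hr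
  have hK : (0 : ℝ) < 1 / (|K| + 1) := by positivity
  have h1 := (h.eventually (gt_mem_nhds hK)).exists_forall_of_atTop
  obtain ⟨i₀, h2⟩ := h1
  refine ⟨i₀, fun i hi => ?_⟩
  have h3 := h2 i hi
  have h4 : (0 : ℝ) < (2 ^ c) ^ i := by positivity
  rw [div_lt_iff₀ h4] at h3
  rw [Real.rpow_mul_natCast (by norm_num)]
  have h5 : K ≤ |K| + 1 := by linarith [le_abs_self K]
  have h6 : (0 : ℝ) ≤ (i : ℝ) ^ k := by positivity
  calc K * (i : ℝ) ^ k ≤ (|K| + 1) * (i : ℝ) ^ k := mul_le_mul_of_nonneg_right h5 h6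
    _ ≤ (|K| + 1) * (1 / (|K| + 1) * (2 ^ c) ^ i) :=
        mul_le_mul_of_nonneg_left h3.le (by positivity)
    _ = (2 ^ c) ^ i := by
        have : |K| + 1 ≠ 0 := by positivity
        field_simp

theorem hh_le (δ : ℝ) (hδ : δ ≤ 1 / 2) (i : ℕ) : (hh δ i : ℝ) ≤ (2 : ℝ) ^ ((1 / 2 - δ) * i) := by
  rw [hh]
  push_cast
  rw [← Real.rpow_natCast]
  apply Real.rpow_le_rpow_of_exponent_le (by norm_num)
  exact Nat.floor_le (mul_nonneg (by linarith) (Nat.cast_nonneg _))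

theorem le_hh (δ : ℝ) (i : ℕ) : (2 : ℝ) ^ ((1 / 2 - δ) * i) ≤ 2 * hh δ i := by
  rw [hh]
  push_cast
  rw [← pow_succ', ← Real.rpow_natCast]
  apply Real.rpow_le_rpow_of_exponent_le (by norm_num)
  push_cast
  exact (Nat.lt_floor_add_one _).le

theorem frac_bound (k N d y : ℕ) (hd : 1 ≤ d) (B : ℝ)
    (hB : ∀ N' : ℕ, N / d ≤ N' → N' ≤ 2 * (N / d) →
      |∑ n ∈ Ioc (N / d) N', (Int.fract ((y : ℝ) / (k * n)) - 1 / 2)| ≤ B) :
    |∑ n ∈ Ioc (N / d) (2 * N / d), (Int.fract ((y : ℝ) / (k * n)) - 1 / 2)| ≤ B + 1 := by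
  have h1 : N / d ≤ 2 * N / d := Nat.div_le_div_right (by omega)
  rcases le_or_gt (2 * N / d) (2 * (N / d)) with h | h
  · have := hB _ h1 h
    linarith
  · have h2 : 2 * N / d < 2 * (N / d) + 2 := by
      rw [Nat.div_lt_iff_lt_mul (by omega)]
      have := Nat.lt_mul_of_div_lt (Nat.lt_succ_self (N / d)) (by omega : 0 < d)
      nlinarith
    have h3 : 2 * N / d = 2 * (N / d) + 1 := by omega
    rw [h3, sum_Ioc_succ_top (by omega)]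
    have h4 := hB (2 * (N / d)) (by omega) le_rfl
    have h5 : |Int.fract ((y : ℝ) / (k * ((2 * (N / d) + 1 : ℕ) : ℝ))) - 1 / 2| ≤ 1 := by
      have h6 := Int.fract_nonneg ((y : ℝ) / (k * ((2 * (N / d) + 1 : ℕ) : ℝ)))
      have h7 := Int.fract_lt_one ((y : ℝ) / (k * ((2 * (N / d) + 1 : ℕ) : ℝ)))
      rw [abs_le]
      constructor <;> linarith
    exact (abs_add_le _ _).trans (by linarith)

theorem exps (θ κ δ γ x η0 τ0 : ℝ) (hθη : θ ≤ η0) (hθτ : θ ≤ τ0) (hθ4 : θ ≤ 1 / 4)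
    (hκ0 : 0 < κ) (hκθ : κ ≤ θ / 16) (hγ1 : γ ≤ κ / 2) (hδ : 0 < δ) (hδ1 : δ ≤ κ / 2)
    (hx : 0 < x) (hθx : 4 ≤ θ * x) :
    (θ / 16 * x + 1 ≤ (1 / 2 - κ / 2) * x) ∧ ((1 / 2 - η0) * x ≤ (1 / 2 - θ) * x) ∧
    (1 / 2 * x ≤ (1 / 2 - θ) * x + (1 / 2 - κ / 2) * x) ∧ (θ / 16 * x + θ / 16 * x ≤ η0 * x) ∧
    ((1 / 2 - τ0) * x + (θ / 16 * x + 1) ≤ (1 / 2 - κ / 2) * x) ∧
    ((1 / 2 + κ / 2) * x ≤ (1 / 2 + τ0) * x) ∧
    (3 * θ / 16 * x + (1 / 2 - θ) * x + θ / 2 * x ≤ (1 / 2 - δ) * x) ∧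
    (κ * x ≤ (1 / 2 - κ / 2) * x) ∧ (γ / 2 * x ≤ κ * x / 2) ∧ (0 ≤ (1 / 2 - θ) * x) ∧
    (κ * x ≤ x) ∧ ((1 / 2 - δ) * x ≤ 1 / 2 * x) := by
  have a1 := mul_le_mul_of_nonneg_right hθη hx.le
  have a2 := mul_le_mul_of_nonneg_right hθτ hx.le
  have a3 := mul_le_mul_of_nonneg_right hθ4 hx.le
  have a4 := mul_le_mul_of_nonneg_right hκθ hx.le
  have a5 := mul_le_mul_of_nonneg_right hγ1 hx.le
  have a6 := mul_le_mul_of_nonneg_right hδ1 hx.le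
  have a7 := mul_pos hκ0 hx
  have a8 := mul_pos hδ hx
  refine ⟨?_, ?_, ?_, ?_, ?_, ?_, ?_, ?_, ?_, ?_, ?_, ?_⟩ <;> linarith

set_option maxHeartbeats 1000000 in
theorem midRange : T_MR := by
  rintro ⟨η0, τ0, C, hη0, hτ0, hC, hFS⟩
  obtain ⟨C0, hC0, hS⟩ := sieve_pairs
  obtain ⟨K, hK, hP⟩ := prod_gg_le C0
  have hC0' : (1 : ℝ) ≤ C0 := by exact_mod_cast hC0
  have hQ : (1 : ℝ) ≤ (C0 : ℝ) * C0 := by nlinarith
  set θ : ℝ := min (min η0 τ0) (1 / 4) with hθdef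
  have hθ0 : 0 < θ := lt_min (lt_min hη0 hτ0) (by norm_num)
  have hθη : θ ≤ η0 := (min_le_left _ _).trans (min_le_left _ _)
  have hθτ : θ ≤ τ0 := (min_le_left _ _).trans (min_le_right _ _)
  have hθ4 : θ ≤ 1 / 4 := min_le_right _ _
  set κ : ℝ := θ / (16 * ((C0 : ℝ) * C0)) with hκdef
  have hκ0 : 0 < κ := by positivity
  have hκθ : κ ≤ θ / 16 := by
    rw [hκdef]
    apply div_le_div_of_nonneg_left hθ0.le (by norm_num)
    linarith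
  have hκQ : κ * ((C0 : ℝ) * C0) = θ / 16 := by
    rw [hκdef]
    have : (C0 : ℝ) ≠ 0 := by positivity
    field_simp
  refine ⟨8 * K / κ + 1, κ / 2, by positivity, by positivity, ?_⟩
  intro γ δ hγ hγ1 hδ hδ1
  obtain ⟨i1, hi1⟩ := large_pow 3 (θ / 2) (6 * (2 * C + 4)) (by positivity)
  obtain ⟨i2, hi2⟩ := exists_nat_ge (2 / γ)
  obtain ⟨i3, hi3⟩ := exists_nat_ge (1 / κ)
  obtain ⟨i4, hi4⟩ := exists_nat_ge (4 / θ)
  refine ⟨max 1 (max (max i1 i2) (max i3 i4)), le_max_left _ _, ?_⟩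
  intro i hi a N ha1 ha2 hN1 hN2
  have hi1' : i1 ≤ i := by omega
  have hi2' : i2 ≤ i := by omega
  have hi3' : i3 ≤ i := by omega
  have hi4' : i4 ≤ i := by omega
  have hi1'' : 1 ≤ i := by omega
  set x : ℝ := (i : ℝ) with hx
  have hx1 : 1 ≤ x := by rw [hx]; exact_mod_cast hi1''
  have hx0 : 0 < x := by linarith
  have hγx : 2 ≤ γ * x := by
    have h1 : 2 / γ ≤ x := hi2.trans (by rw [hx]; exact_mod_cast hi2')
    rw [div_le_iff₀ hγ] at h1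
    linarith
  have hκx : 1 ≤ κ * x := by
    have h1 : 1 / κ ≤ x := hi3.trans (by rw [hx]; exact_mod_cast hi3')
    rw [div_le_iff₀ hκ0] at h1
    linarith
  have hθx : 4 ≤ θ * x := by
    have h1 : 4 / θ ≤ x := hi4.trans (by rw [hx]; exact_mod_cast hi4')
    rw [div_le_iff₀ hθ0] at h1
    linarith
  have hlarge : 6 * (2 * C + 4) * x ^ 3 ≤ (2 : ℝ) ^ (θ / 2 * x) := hi1 i hi1'
  obtain ⟨e1, e2, e3, e4, e5, e6, e7, e8, e9, e10, e11, e12⟩ :=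
    exps θ κ δ γ x η0 τ0 hθη hθτ hθ4 hκ0 hκθ hγ1 hδ hδ1 hx0 hθx
  have two1 : (1 : ℝ) ≤ 2 := by norm_num
  have two0 : (0 : ℝ) < 2 := by norm_num
  -- the level
  obtain ⟨m, hm⟩ : ∃ m : ℕ, m = ⌊κ * x⌋₊ := ⟨_, rfl⟩
  have hm1 : 1 ≤ m := hm ▸ (Nat.one_le_floor_iff _ |>.2 hκx)
  obtain ⟨J, hJ⟩ : ∃ J : ℕ, J = Nat.log 2 m := ⟨_, rfl⟩
  have hJ1 : 2 ^ J ≤ m := hJ ▸ Nat.pow_log_le_self 2 (by omega)
  have hJ2 : m < 2 ^ (J + 1) := hJ ▸ Nat.lt_pow_succ_log_self (by norm_num) m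
  have hJx : ((2 ^ J : ℕ) : ℝ) ≤ κ * x := by
    have h1 : ((2 ^ J : ℕ) : ℝ) ≤ m := by exact_mod_cast hJ1
    exact h1.trans (hm ▸ Nat.floor_le (by positivity))
  have hxJ : κ * x / 2 ≤ ((2 ^ J : ℕ) : ℝ) := by
    have h1 : κ * x < m + 1 := hm ▸ Nat.lt_floor_add_one _
    have h2 : ((m + 1 : ℕ) : ℝ) ≤ ((2 ^ (J + 1) : ℕ) : ℝ) := by exact_mod_cast hJ2
    push_cast at h2 ⊢
    rw [pow_succ] at h2
    linarith
  have hJle : (J : ℝ) ≤ x := by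
    have h1 : J ≤ 2 ^ J := Nat.lt_two_pow_self.le
    have h2 : (J : ℝ) ≤ ((2 ^ J : ℕ) : ℝ) := by exact_mod_cast h1
    linarith
  obtain ⟨D, hD⟩ : ∃ D : ℕ, D = (2 ^ 2 ^ J) ^ (C0 * C0) := ⟨_, rfl⟩
  have hDle : (D : ℝ) ≤ (2 : ℝ) ^ (θ / 16 * x) := by
    rw [hD]
    push_cast
    rw [← pow_mul, ← Real.rpow_natCast]
    apply Real.rpow_le_rpow_of_exponent_le two1
    push_cast at hJx ⊢
    calc (2 : ℝ) ^ J * ((C0 : ℝ) * C0) ≤ κ * x * ((C0 : ℝ) * C0) :=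
          mul_le_mul_of_nonneg_right hJx (by positivity)
      _ = (κ * ((C0 : ℝ) * C0)) * x := by ring
      _ = θ / 16 * x := by rw [hκQ]
  have hz' : ((2 ^ 2 ^ J : ℕ) : ℝ) ≤ (2 : ℝ) ^ (κ * x) := by
    push_cast
    rw [← Real.rpow_natCast]
    apply Real.rpow_le_rpow_of_exponent_le two1
    exact hJx
  -- the interval length
  have hδ2 : δ ≤ θ / 32 := by linarith
  obtain ⟨h, hh'⟩ : ∃ h : ℕ, h = hh δ i := ⟨_, rfl⟩
  have hh1 : (h : ℝ) ≤ (2 : ℝ) ^ ((1 / 2 - δ) * x) := hh' ▸ hh_le δ (by linarith) i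
  have hh2 : (2 : ℝ) ^ ((1 / 2 - δ) * x) ≤ 2 * h := hh' ▸ le_hh δ i
  rw [← hh']
  have hh3 : (h : ℝ) ≤ (2 : ℝ) ^ (1 / 2 * x) :=
    hh1.trans (Real.rpow_le_rpow_of_exponent_le two1 e12)
  have hh4 : h ≤ 2 ^ i := by
    have h1 : (h : ℝ) ≤ ((2 ^ i : ℕ) : ℝ) := by
      push_cast
      rw [← Real.rpow_natCast]
      refine hh3.trans (Real.rpow_le_rpow_of_exponent_le two1 ?_)
      rw [← hx]; linarith
    exact_mod_cast h1
  have hh0 : (0 : ℝ) < h := by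
    have : (0 : ℝ) < (2 : ℝ) ^ ((1 / 2 - δ) * x) := by positivity
    linarith
  have hp1 : 2 ^ (i + 1) = 2 * 2 ^ i := by ring
  have hp2 : 2 ^ (i + 2) = 4 * 2 ^ i := by ring
  have hpi : 0 < 2 ^ i := by positivity
  have hM : a + h < 2 ^ (i + 2) := by omega
  -- N
  have hNpos : (0 : ℝ) < N := lt_of_lt_of_le (by positivity) hN1
  have hτ1 : κ / 2 ≤ θ / 32 := by linarith
  have hdN : ∀ d : ℕ, d ≤ D → 2 * (d : ℝ) ≤ (2 : ℝ) ^ ((1 / 2 - κ / 2) * x) := by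
    intro d hd
    have h1 : (d : ℝ) ≤ D := by exact_mod_cast hd
    have h2 : 2 * (2 : ℝ) ^ (θ / 16 * x) = (2 : ℝ) ^ (θ / 16 * x + 1) := by
      rw [Real.rpow_add two0, Real.rpow_one]; ring
    calc 2 * (d : ℝ) ≤ 2 * (2 : ℝ) ^ (θ / 16 * x) := by linarith
      _ = (2 : ℝ) ^ (θ / 16 * x + 1) := h2
      _ ≤ (2 : ℝ) ^ ((1 / 2 - κ / 2) * x) := by
        exact Real.rpow_le_rpow_of_exponent_le two1 e1
  obtain ⟨R, hR⟩ : ∃ R : ℝ, R = (2 : ℝ) ^ ((1 / 2 - θ) * x) := ⟨_, rfl⟩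
  have hR1 : 1 ≤ R := hR ▸ Real.one_le_rpow two1 e10
  obtain ⟨B, hB⟩ : ∃ B : ℝ, B = C * (2 : ℝ) ^ ((1 / 2 - η0) * x) + 1 := ⟨_, rfl⟩
  obtain ⟨E, hE⟩ : ∃ E : ℝ, E = 2 * B + 2 * h / N := ⟨_, rfl⟩
  have hE0 : 0 ≤ E := by rw [hE, hB]; positivity
  have hER : E ≤ (2 * C + 4) * R := by
    have h1 : (2 : ℝ) ^ ((1 / 2 - η0) * x) ≤ R :=
      hR ▸ Real.rpow_le_rpow_of_exponent_le two1 e2
    have h2 : (h : ℝ) / N ≤ R := by
      rw [div_le_iff₀ hNpos]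
      calc (h : ℝ) ≤ (2 : ℝ) ^ (1 / 2 * x) := hh3
        _ ≤ (2 : ℝ) ^ ((1 / 2 - θ) * x + (1 / 2 - κ / 2) * x) :=
            Real.rpow_le_rpow_of_exponent_le two1 e3
        _ = R * (2 : ℝ) ^ ((1 / 2 - κ / 2) * x) := by rw [hR, Real.rpow_add two0]
        _ ≤ R * N := mul_le_mul_of_nonneg_left hN1 (by linarith)
    have h3 : C * (2 : ℝ) ^ ((1 / 2 - η0) * x) ≤ C * R := mul_le_mul_of_nonneg_left h1 hC.le
    have h4 : 2 * (h : ℝ) / N = 2 * (h / N) := by ring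
    rw [hE, hB, h4]
    linarith
  obtain ⟨W, hW⟩ : ∃ W, W = Om N a h (2 ^ (i + 2)) := ⟨_, rfl⟩
  have hH : ∀ d e : ℕ, 1 ≤ d → 1 ≤ e → d ≤ D → e ≤ D →
      |((W.filter (fun u => d ∣ u.1 ∧ e ∣ u.2)).card : ℝ) - h * Real.log 2 / (d * e)| ≤ E := by
    intro d e hd he hdD heD
    have hd0 : (0 : ℝ) < d := by exact_mod_cast hd
    have h2d : 2 * (d : ℝ) ≤ N := (hdN d hdD).trans hN1
    have h2d' : 2 * d ≤ N := by exact_mod_cast h2d
    rw [hE, hW]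
    apply count_bound N a h _ d e hM hd he h2d'
    intro y hy1 hy2
    rw [hB]
    apply frac_bound (d * e) N d y hd
    intro N' hN1' hN2'
    have hdiv : (N : ℝ) / (2 * d) ≤ ((N / d : ℕ) : ℝ) := by
      have h5 : (N : ℝ) / d < (N / d : ℕ) + 1 := by
        rw [div_lt_iff₀ hd0]
        exact_mod_cast Nat.lt_mul_of_div_lt (Nat.lt_succ_self _) (by omega)
      have h6 : (2 : ℝ) ≤ N / d := by rw [le_div_iff₀ hd0]; exact h2d
      have h7 : (N : ℝ) / (2 * d) = (N / d) / 2 := by field_simp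
      rw [h7]
      linarith
    apply hFS i (d * e) (N / d) N' y hi1'' (Nat.mul_pos hd he)
    · have h1 : ((d * e : ℕ) : ℝ) ≤ (2 : ℝ) ^ (θ / 16 * x) * (2 : ℝ) ^ (θ / 16 * x) := by
        push_cast
        apply mul_le_mul _ _ (by positivity) (by positivity)
        · exact le_trans (by exact_mod_cast hdD) hDle
        · exact le_trans (by exact_mod_cast heD) hDle
      refine h1.trans ?_
      rw [← Real.rpow_add two0]
      exact Real.rpow_le_rpow_of_exponent_le two1 e4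
    · refine le_trans ?_ hdiv
      rw [le_div_iff₀ (by positivity)]
      have h1 : 2 * (d : ℝ) ≤ (2 : ℝ) ^ (θ / 16 * x + 1) := by
        rw [Real.rpow_add two0, Real.rpow_one]
        have h1 : (d : ℝ) ≤ D := by exact_mod_cast hdD
        linarith
      calc (2 : ℝ) ^ ((1 / 2 - τ0) * x) * (2 * d)
          ≤ (2 : ℝ) ^ ((1 / 2 - τ0) * x) * (2 : ℝ) ^ (θ / 16 * x + 1) :=
            mul_le_mul_of_nonneg_left h1 (by positivity)
        _ = (2 : ℝ) ^ ((1 / 2 - τ0) * x + (θ / 16 * x + 1)) :=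
            (Real.rpow_add two0 _ _).symm
        _ ≤ (2 : ℝ) ^ ((1 / 2 - κ / 2) * x) := Real.rpow_le_rpow_of_exponent_le two1 e5
        _ ≤ N := hN1
    · exact hN1'
    · exact hN2'
    · have h1 : ((N / d : ℕ) : ℝ) ≤ N := by exact_mod_cast Nat.div_le_self N d
      refine h1.trans (hN2.trans ?_)
      exact Real.rpow_le_rpow_of_exponent_le two1 e6
    · omega
    · omega
  -- the sieve
  obtain ⟨P, hPdef⟩ : ∃ P, P = (Ioc C0 (2 ^ 2 ^ J)).filter Nat.Prime := ⟨_, rfl⟩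
  obtain ⟨Y, hY⟩ : ∃ Y : ℝ, Y = (2 : ℝ) ^ (γ / 2 * x) := ⟨_, rfl⟩
  have hY2 : 2 ≤ Y := by
    rw [hY]
    calc (2 : ℝ) = (2 : ℝ) ^ (1 : ℝ) := (Real.rpow_one _).symm
      _ ≤ (2 : ℝ) ^ (γ / 2 * x) := by
        apply Real.rpow_le_rpow_of_exponent_le two1
        linarith
  have hYJ : ⌊Y⌋₊ ≤ 2 ^ 2 ^ J := by
    apply Nat.floor_le_of_le
    push_cast
    rw [← Real.rpow_natCast, hY]
    apply Real.rpow_le_rpow_of_exponent_le two1
    exact e9.trans hxJ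
  have hsv := hS J ⌊Y⌋₊ P (fun p hp => by
    rw [hPdef, mem_filter, mem_Ioc] at hp
    exact ⟨hp.2, hp.1.1, hp.1.2⟩) W (h * Real.log 2) E (by positivity) hE0 (hD ▸ hH)
  rw [← hD] at hsv
  have hsub : (((((Ioc N (2 * N)) ×ˢ (range (2 ^ (i + 2)))).filter (fun u : ℕ × ℕ => u.1.Prime ∧
      a < u.1 * u.2 ∧ u.1 * u.2 ≤ a + h ∧ Rough ((2 : ℝ) ^ (γ * x)) u.2)).card : ℕ) : ℝ) ≤
      ((W.filter (fun u => ∀ p ∈ P, ¬ hit ⌊Y⌋₊ p u)).card : ℝ) := by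
    apply Nat.cast_le.2
    apply card_le_card
    intro u hu
    rw [mem_filter] at hu
    obtain ⟨hu1, hu2, hu3, hu4, hu5⟩ := hu
    rw [mem_filter, hW, Om, mem_filter]
    refine ⟨⟨hu1, hu3, hu4⟩, ?_⟩
    intro l hl hhit
    rw [hPdef, mem_filter, mem_Ioc] at hl
    obtain ⟨⟨hl1, hl2⟩, hl3⟩ := hl
    have hlN : l ≤ N := by
      have h1 : (l : ℝ) ≤ N := by
        calc (l : ℝ) ≤ ((2 ^ 2 ^ J : ℕ) : ℝ) := by exact_mod_cast hl2
          _ ≤ (2 : ℝ) ^ (κ * x) := hz'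
          _ ≤ (2 : ℝ) ^ ((1 / 2 - κ / 2) * x) := Real.rpow_le_rpow_of_exponent_le two1 e8
          _ ≤ N := hN1
      exact_mod_cast h1
    have hlu : ¬ l ∣ u.1 := by
      intro hd
      have h1 := (Nat.prime_dvd_prime_iff_eq hl3 hu2).1 hd
      have h2 := (mem_Ioc.1 (mem_product.1 hu1).1).1
      omega
    rw [hit] at hhit
    split_ifs at hhit with hly
    · rcases hl3.dvd_mul.1 hhit with h1 | h1
      · exact hlu h1
      · have h2 := hu5 l hl3 h1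
        have h3 : (l : ℝ) ≤ Y := le_trans (by exact_mod_cast hly) (Nat.floor_le (by linarith))
        have h4 : Y < (2 : ℝ) ^ (γ * x) := by
          rw [hY]
          apply Real.rpow_lt_rpow_of_exponent_lt (by norm_num)
          linarith
        linarith
    · exact hlu hhit
  have hprod := hP J Y hY2 hYJ
  rw [← hPdef] at hprod
  have hlogY : Real.log Y = γ / 2 * x * Real.log 2 := by
    rw [hY, Real.log_rpow two0]
  have hl2 : 0 < Real.log 2 := Real.log_pos (by norm_num)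
  have hmain : 2 * (h * Real.log 2 * ∏ p ∈ P, (1 - gg ⌊Y⌋₊ p)) ≤
      8 * K / κ * (h / (γ * x ^ 2)) := by
    have h1 : ∏ p ∈ P, (1 - gg ⌊Y⌋₊ p) ≤ K / (κ * x / 2 * (γ / 2 * x * Real.log 2)) := by
      refine hprod.trans ?_
      rw [hlogY]
      apply div_le_div_of_nonneg_left hK.le (by positivity)
      apply mul_le_mul_of_nonneg_right _ (by positivity)
      push_cast at hxJ
      exact hxJ
    calc 2 * (h * Real.log 2 * ∏ p ∈ P, (1 - gg ⌊Y⌋₊ p))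
        ≤ 2 * (h * Real.log 2 * (K / (κ * x / 2 * (γ / 2 * x * Real.log 2)))) := by
          apply mul_le_mul_of_nonneg_left _ (by norm_num)
          exact mul_le_mul_of_nonneg_left h1 (by positivity)
      _ = 8 * K / κ * (h / (γ * x ^ 2)) := by
          field_simp
          ring
  have herr : ((J : ℝ) + 2) * ((D : ℝ) ^ 3 * E) ≤ h / (γ * x ^ 2) := by
    have h1 : (D : ℝ) ^ 3 ≤ (2 : ℝ) ^ (3 * θ / 16 * x) := by
      calc (D : ℝ) ^ 3 ≤ ((2 : ℝ) ^ (θ / 16 * x)) ^ 3 :=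
            pow_le_pow_left₀ (Nat.cast_nonneg _) hDle 3
        _ = (2 : ℝ) ^ (3 * θ / 16 * x) := by
            rw [← Real.rpow_mul_natCast two0.le]
            congr 1
            push_cast
            ring
    have h2 : (D : ℝ) ^ 3 * E ≤ (2 : ℝ) ^ (3 * θ / 16 * x) * ((2 * C + 4) * R) :=
      mul_le_mul h1 hER hE0 (by positivity)
    have h3 : (J : ℝ) + 2 ≤ 3 * x := by linarith
    have hγ1' : γ ≤ 1 := by linarith
    have h4 : (h : ℝ) / x ^ 2 ≤ h / (γ * x ^ 2) := by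
      apply div_le_div_of_nonneg_left hh0.le (by positivity)
      have h5 : 0 < x ^ 2 := by positivity
      have h6 := mul_le_mul_of_nonneg_right hγ1' h5.le
      linarith
    refine le_trans ?_ h4
    rw [le_div_iff₀ (by positivity)]
    have h5 : (2 : ℝ) ^ (3 * θ / 16 * x) * R * (2 : ℝ) ^ (θ / 2 * x) ≤
        (2 : ℝ) ^ ((1 / 2 - δ) * x) := by
      rw [hR, ← Real.rpow_add two0, ← Real.rpow_add two0]
      exact Real.rpow_le_rpow_of_exponent_le two1 e7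
    have hR0 : 0 < R := by linarith
    have hU : 0 ≤ (2 : ℝ) ^ (3 * θ / 16 * x) * R := by positivity
    calc ((J : ℝ) + 2) * ((D : ℝ) ^ 3 * E) * x ^ 2
        ≤ (3 * x) * ((2 : ℝ) ^ (3 * θ / 16 * x) * ((2 * C + 4) * R)) * x ^ 2 := by
          apply mul_le_mul_of_nonneg_right _ (by positivity)
          exact mul_le_mul h3 h2 (by positivity) (by positivity)
      _ = (2 : ℝ) ^ (3 * θ / 16 * x) * R * (6 * (2 * C + 4) * x ^ 3) / 2 := by ring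
      _ ≤ (2 : ℝ) ^ (3 * θ / 16 * x) * R * (2 : ℝ) ^ (θ / 2 * x) / 2 := by
          apply div_le_div_of_nonneg_right _ (by norm_num)
          exact mul_le_mul_of_nonneg_left hlarge hU
      _ ≤ (2 : ℝ) ^ ((1 / 2 - δ) * x) / 2 := by linarith
      _ ≤ h := by linarith
  calc (((((Ioc N (2 * N)) ×ˢ (range (2 ^ (i + 2)))).filter (fun u : ℕ × ℕ => u.1.Prime ∧
      a < u.1 * u.2 ∧ u.1 * u.2 ≤ a + h ∧ Rough ((2 : ℝ) ^ (γ * x)) u.2)).card : ℕ) : ℝ)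
      ≤ ((W.filter (fun u => ∀ p ∈ P, ¬ hit ⌊Y⌋₊ p u)).card : ℝ) := hsub
    _ ≤ _ := hsv
    _ ≤ 8 * K / κ * (h / (γ * x ^ 2)) + h / (γ * x ^ 2) := add_le_add hmain herr
    _ = (8 * K / κ + 1) * h / (γ * x ^ 2) := by ring

end Pool.Agent.W161.MO
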